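import Pool.Agent.W692.KKS.CinstB
import Pool.Agent.W357.KKS.STD

/-!
# Corners of instances
-/

set_option autoImplicit false
set_option linter.unusedSectionVars false

open scoped InnerProductSpace
open Pool.Agent.W662.KKS Pool.Agent.Helper278

namespace Pool.Agent.W692.KKS

variable {H : Type} [NormedAddCommGroup H] [InnerProductSpace ℂ H] [CompleteSpace H]
  {K : Type} [NormedAddCommGroup K] [InnerProductSpace ℂ K] [CompleteSpace K]

theorem proj_norm_le {e : H →L[ℂ] H} (hes : star e = e) (hee : e * e = e) (v : H) :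
    ‖e v‖ ≤ ‖v‖ := by
  have h4 : ‖e v‖ ^ 2 ≤ ‖e v‖ * ‖v‖ := by
    have h5 : ((‖e v‖ ^ 2 : ℝ) : ℂ) = ⟪e v, v⟫_ℂ := by
      have h6 : e v = star e (e v) := by
        rw [hes]; exact (app_eq hee v).symm
      have h7 : ⟪e v, v⟫_ℂ = ⟪e v, e v⟫_ℂ := by
        conv_lhs => rw [h6]
        rw [inner_star']
      rw [h7, inner_self_eq_norm_sq_to_K]
      push_cast; rfl
    have h6 := norm_inner_le_norm (𝕜 := ℂ) (e v) v
    rw [← h5, Complex.norm_real, Real.norm_of_nonneg (sq_nonneg _)] at h6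
    exact h6
  rcases (norm_nonneg (e v)).eq_or_lt with h5 | h5
  · rw [← h5]; exact norm_nonneg _
  · nlinarith

theorem star_cor {V : K →L[ℂ] H} (hV : ∀ k, ‖V k‖ = ‖k‖) {x : H →L[ℂ] H} {z : K →L[ℂ] K}
    (hz : ∀ k, V (z k) = x (V k)) (hx : ∀ k, ∃ k', V k' = star x (V k)) (k : K) :
    V (star z k) = star x (V k) := by
  obtain ⟨k', hk'⟩ := hx k
  rw [← hk']
  congr 1
  refine ext_inner_left ℂ fun u => ?_
  rw [inner_star, ← inner_isom V hV, hz, ← inner_star, ← hk', inner_isom V hV]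

/-- compression -/
noncomputable def cp (V : K →L[ℂ] H) (x : H →L[ℂ] H) : K →L[ℂ] K :=
  ContinuousLinearMap.adjoint V ∘L x ∘L V

theorem cp_spec {V : K →L[ℂ] H} (hV : ∀ k, ‖V k‖ = ‖k‖) {x : H →L[ℂ] H}
    (hx : ∀ k, ∃ k', V k' = x (V k)) (k : K) : V (cp V x k) = x (V k) := by
  obtain ⟨k', hk'⟩ := hx k
  show V (ContinuousLinearMap.adjoint V (x (V k))) = _
  rw [← hk', adj_isom V hV]

theorem corner_left {e x : H →L[ℂ] H} (hee : e * e = e) (hxe : e * x * e = x) : e * x = x := by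
  conv_rhs => rw [← hxe]
  conv_lhs => rw [← hxe]
  rw [← mul_assoc, ← mul_assoc, hee]

theorem corner_right {e x : H →L[ℂ] H} (hee : e * e = e) (hxe : e * x * e = x) : x * e = x := by
  conv_rhs => rw [← hxe]
  conv_lhs => rw [← hxe]
  rw [mul_assoc, hee]

/-- elements of the corner preserve the range -/
theorem range_of {R : VonNeumannAlgebra H} {e f : H →L[ℂ] H} (hfR : f ∈ R.commutant)
    (hee : e * e = e) {V : K →L[ℂ] H} (hr : ∀ v, (e v = v ∧ f v = v) ↔ ∃ k, V k = v)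
    {x : H →L[ℂ] H} (hx : x ∈ R) (hxe : e * x * e = x) (k : K) : ∃ k', V k' = x (V k) := by
  have hk := (hr (V k)).2 ⟨k, rfl⟩
  refine (hr _).1 ⟨app_eq (corner_left hee hxe) _, ?_⟩
  have h1 : x (f (V k)) = f (x (V k)) := app_eq ((mem_comm_iff R f).1 hfR x hx) (V k)
  rw [← h1, hk.2]

theorem near_cor {R S : VonNeumannAlgebra H} {R₁ S₁ : VonNeumannAlgebra K} {e f : H →L[ℂ] H}
    (hes : star e = e) (hee : e * e = e) (heS : e ∈ S) (hfS : f ∈ S.commutant)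
    {V : K →L[ℂ] H} (hV : ∀ k, ‖V k‖ = ‖k‖)
    (hr : ∀ v, (e v = v ∧ f v = v) ↔ ∃ k, V k = v) {γ : ℝ}
    (hR₁ : ∀ z : K →L[ℂ] K, z ∈ R₁ → ∃ x ∈ R, e * x * e = x ∧ ∀ k, V (z k) = x (V k))
    (hS₁ : ∀ z : K →L[ℂ] K, (∃ x ∈ S, e * x * e = x ∧ ∀ k, V (z k) = x (V k)) → z ∈ S₁)
    (hiso : ∀ x ∈ R, e * x * e = x → ∀ z : K →L[ℂ] K, (∀ k, V (z k) = x (V k)) → ‖z‖ = ‖x‖)
    (hn : Near (R : Set (H →L[ℂ] H)) S γ) : Near (R₁ : Set (K →L[ℂ] K)) S₁ γ := by
  intro z hz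
  obtain ⟨x, hx, hxe, hzx⟩ := hR₁ z hz
  obtain ⟨y, hy, hxy⟩ := hn x hx
  have hy' : e * (e * y * e) * e = e * y * e := by
    calc e * (e * y * e) * e = (e * e) * y * (e * e) := by noncomm_ring
      _ = _ := by rw [hee]
  have hyS : e * y * e ∈ S := mul_mem (mul_mem heS hy) heS
  have hsp := cp_spec hV (range_of hfS hee hr hyS hy')
  refine ⟨cp V (e * y * e), hS₁ _ ⟨_, hyS, hy', hsp⟩, ?_⟩
  rw [hiso x hx hxe z hzx]
  refine le_trans ?_ hxy
  refine ContinuousLinearMap.opNorm_le_bound _ (norm_nonneg _) fun k => ?_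
  rw [← hV]
  have h1 : V ((z - cp V (e * y * e)) k) = e ((x - y) (e (V k))) := by
    show V (z k - cp V (e * y * e) k) = _
    rw [map_sub, hzx, hsp]
    conv_lhs => rw [← hxe]
    show e (x (e (V k))) - e (y (e (V k))) = e (x (e (V k)) - y (e (V k)))
    rw [map_sub]
  rw [h1]
  refine (proj_norm_le hes hee _).trans ?_
  refine (ContinuousLinearMap.le_opNorm _ _).trans ?_
  refine mul_le_mul_of_nonneg_left ?_ (norm_nonneg _)
  refine (proj_norm_le hes hee _).trans ?_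
  rw [hV]

section std

variable {M : VonNeumannAlgebra H} {ξ : H} {ρ : (H →L[ℂ] H) → (H →L[ℂ] H)}

theorem rho_sub (hS : Std M ξ ρ) {a b : H →L[ℂ] H} (ha : a ∈ M) (hb : b ∈ M) :
    ρ (a - b) = ρ a - ρ b := by
  have h1 : a - b = a + (-1 : ℂ) • b := by simp [sub_eq_add_neg]
  rw [h1, hS.add a ha _ (M.toStarSubalgebra.smul_mem hb _), hS.smul _ b hb]
  simp [sub_eq_add_neg]

theorem rho_inj (hS : Std M ξ ρ) {a b : H →L[ℂ] H} (ha : a ∈ M) (hb : b ∈ M)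
    (h : ρ a = ρ b) : a = b := by
  have h1 : ‖a - b‖ = 0 := by
    rw [← hS.norm _ (sub_mem ha hb), rho_sub hS ha hb, h, sub_self, norm_zero]
  exact sub_eq_zero.1 (norm_eq_zero.1 h1)

theorem rho_mem (hS : Std M ξ ρ) {a : H →L[ℂ] H} (ha : a ∈ M) : ρ a ∈ M.commutant :=
  (mem_comm_iff M _).2 fun x hx => (hS.comm a ha x hx).symm

theorem rho_surj (hS : Std M ξ ρ) {r : H →L[ℂ] H} (hr : r ∈ M.commutant) :
    ∃ a ∈ M, r = ρ a :=
  hS.surj r fun x hx => ((mem_comm_iff M r).1 hr x hx).symm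

/-- the image of the masa -/
noncomputable def rhoA (hS : Std M ξ ρ) {A : StarSubalgebra ℂ (H →L[ℂ] H)} (hA : IsMasa M A) :
    StarSubalgebra ℂ (H →L[ℂ] H) where
  carrier := {r | ∃ a ∈ A, ρ a = r}
  mul_mem' := by
    rintro _ _ ⟨a, ha, rfl⟩ ⟨b, hb, rfl⟩
    exact ⟨b * a, A.mul_mem hb ha, hS.mul b (hA.le b hb) a (hA.le a ha)⟩
  add_mem' := by
    rintro _ _ ⟨a, ha, rfl⟩ ⟨b, hb, rfl⟩
    exact ⟨a + b, A.add_mem ha hb, hS.add a (hA.le a ha) b (hA.le b hb)⟩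
  algebraMap_mem' := by
    intro c
    refine ⟨c • 1, A.smul_mem A.one_mem c, ?_⟩
    rw [hS.smul c 1 (one_mem M), hS.one, Algebra.algebraMap_eq_smul_one]
  star_mem' := by
    rintro _ ⟨a, ha, rfl⟩
    exact ⟨star a, A.star_mem' ha, hS.stm a (hA.le a ha)⟩

theorem mem_rhoA (hS : Std M ξ ρ) {A : StarSubalgebra ℂ (H →L[ℂ] H)} (hA : IsMasa M A)
    (r : H →L[ℂ] H) : r ∈ rhoA hS hA ↔ ∃ a ∈ A, ρ a = r := Iff.rfl

theorem rhoA_masa (hS : Std M ξ ρ) {A : StarSubalgebra ℂ (H →L[ℂ] H)} (hA : IsMasa M A) :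
    IsMasa M.commutant (rhoA hS hA) where
  le := by
    intro r hr
    obtain ⟨a, ha, rfl⟩ := (mem_rhoA hS hA r).1 hr
    exact rho_mem hS (hA.le a ha)
  comm := by
    intro r hr s hs
    obtain ⟨a, ha, rfl⟩ := (mem_rhoA hS hA r).1 hr
    obtain ⟨b, hb, rfl⟩ := (mem_rhoA hS hA s).1 hs
    rw [← hS.mul b (hA.le b hb) a (hA.le a ha), ← hS.mul a (hA.le a ha) b (hA.le b hb),
      hA.comm a ha b hb]
  max := by
    intro r hr hc
    obtain ⟨a, ha, rfl⟩ := rho_surj hS hr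
    refine (mem_rhoA hS hA _).2 ⟨a, hA.max a ha fun b hb => ?_, rfl⟩
    have h1 := hc (ρ b) ((mem_rhoA hS hA _).2 ⟨b, hb, rfl⟩)
    rw [← hS.mul b (hA.le b hb) a ha, ← hS.mul a ha b (hA.le b hb)] at h1
    exact (rho_inj hS (mul_mem (hA.le b hb) ha) (mul_mem ha (hA.le b hb)) h1).symm

end std

theorem cinst (h : S_CRN) : S_CINST := by
  intro H _ _ _ M N ξ ρ A γ hγ0 hγ1 hI p hpA hps hpp hpξ
  have hS := hI.std
  have hD := hI.masa
  have hpM : p ∈ M := hD.le p hpA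
  have hpN : p ∈ N := hI.AN p hpA
  have hfs : star (ρ p) = ρ p := by rw [← hS.stm p hpM, hps]
  have hff : ρ p * ρ p = ρ p := by rw [← hS.mul p hpM p hpM, hpp]
  have hfM : ρ p ∈ M.commutant := rho_mem hS hpM
  have hfN : ρ p ∈ N.commutant := hI.AN' p hpA
  have hpf : p * ρ p = ρ p * p := (mem_comm_iff M _).1 hfM p hpM
  have hvec : p ξ = ρ p ξ := (hS.vec p hpM).symm
  obtain ⟨K, i1, i2, i3, V, hV, hr, hB⟩ := base h p (ρ p) hps hpp hfs hff hpf
  obtain ⟨M₁, hM₁, hM₁'⟩ := hB M hpM hfM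
  obtain ⟨N₁, hN₁, hN₁'⟩ := hB N hpN hfN
  have hr' : ∀ v, (ρ p v = v ∧ p v = v) ↔ ∃ k, V k = v := by
    intro v; rw [and_comm]; exact hr v
  -- separation
  have sM : ∀ y ∈ M, y ξ = 0 → y = 0 := hS.sep
  have sM' : ∀ y ∈ M.commutant, y ξ = 0 → y = 0 := by
    intro y hy hyξ
    obtain ⟨a, ha, rfl⟩ := rho_surj hS hy
    rw [hS.vec a ha] at hyξ
    have h1 := hS.sep a ha hyξ
    have h2 := hS.norm a ha
    rw [h1, norm_zero] at h2
    rw [h1]
    exact norm_eq_zero.1 h2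
  have hγ : γ < 1 := by linarith
  have sN : ∀ y ∈ N, y ξ = 0 → y = 0 :=
    sep_of_masa hD hI.AN hγ0 hγ hI.n2 ξ
      (fun a ha => ⟨ρ a, hI.AN' a ha, (hS.vec a (hD.le a ha)).symm⟩)
      (fun a ha => hS.sep a (hD.le a ha))
  have sN' : ∀ y ∈ N.commutant, y ξ = 0 → y = 0 := by
    refine sep_of_masa (M := M.commutant) (rhoA_masa hS hD) ?_ hγ0 hγ hI.n4 ξ ?_ ?_
    · rintro r hr
      obtain ⟨a, ha, rfl⟩ := (mem_rhoA hS hD r).1 hr
      exact hI.AN' a ha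
    · rintro r hr
      obtain ⟨a, ha, rfl⟩ := (mem_rhoA hS hD r).1 hr
      refine ⟨a, ?_, hS.vec a (hD.le a ha)⟩
      rw [VonNeumannAlgebra.commutant_commutant]
      exact hI.AN a ha
    · rintro r hr
      obtain ⟨a, ha, rfl⟩ := (mem_rhoA hS hD r).1 hr
      exact sM' _ (rho_mem hS (hD.le a ha))
  have hpM'' : p ∈ M.commutant.commutant := by
    rw [VonNeumannAlgebra.commutant_commutant]; exact hpM
  have hpN'' : p ∈ N.commutant.commutant := by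
    rw [VonNeumannAlgebra.commutant_commutant]; exact hpN
  -- isometries
  have isoM : ∀ x ∈ M, p * x * p = x → ∀ z : K →L[ℂ] K, (∀ k, V (z k) = x (V k)) → ‖z‖ = ‖x‖ :=
    fun x hx hxe z hz => iso hpM hfM hps hpp hff hvec sM hV hr x hx hxe z hz
  have isoN : ∀ x ∈ N, p * x * p = x → ∀ z : K →L[ℂ] K, (∀ k, V (z k) = x (V k)) → ‖z‖ = ‖x‖ :=
    fun x hx hxe z hz => iso hpN hfN hps hpp hff hvec sN hV hr x hx hxe z hz
  have isoM' : ∀ x ∈ M.commutant, ρ p * x * ρ p = x → ∀ z : K →L[ℂ] K,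
      (∀ k, V (z k) = x (V k)) → ‖z‖ = ‖x‖ :=
    fun x hx hxe z hz => iso hfM hpM'' hfs hff hpp hvec.symm sM' hV hr' x hx hxe z hz
  have isoN' : ∀ x ∈ N.commutant, ρ p * x * ρ p = x → ∀ z : K →L[ℂ] K,
      (∀ k, V (z k) = x (V k)) → ‖z‖ = ‖x‖ :=
    fun x hx hxe z hz => iso hfN hpN'' hfs hff hpp hvec.symm sN' hV hr' x hx hxe z hz
  -- the vector
  obtain ⟨k₀, hk₀⟩ := (hr (p ξ)).1 ⟨app_eq hpp ξ, by rw [hvec]; exact app_eq hff ξ⟩
  set α : ℂ := ((‖p ξ‖ : ℝ) : ℂ) with hα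
  have hn0 : ‖p ξ‖ ≠ 0 := norm_ne_zero_iff.2 hpξ
  have hα0 : α ≠ 0 := by rw [hα]; exact_mod_cast hn0
  set ξ₁ : K := α⁻¹ • k₀ with hξ₁
  have hVξ : V ξ₁ = α⁻¹ • p ξ := by rw [hξ₁, map_smul, hk₀]
  have hξ₁n : ‖ξ₁‖ = 1 := by
    rw [← hV, hVξ, norm_smul, norm_inv, hα, Complex.norm_real, norm_norm, inv_mul_cancel₀ hn0]
  -- compression of elements of the corner of `M`
  have hcM : ∀ x ∈ M, p * x * p = x → cp V x ∈ M₁ ∧ ∀ k, V (cp V x k) = x (V k) := by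
    intro x hx hxe
    have h1 := cp_spec hV (range_of hfM hpp hr hx hxe)
    exact ⟨(hM₁ _).2 ⟨x, hx, hxe, h1⟩, h1⟩
  have hpxp : ∀ x : H →L[ℂ] H, p * (p * x * p) * p = p * x * p := by
    intro x
    calc p * (p * x * p) * p = (p * p) * x * (p * p) := by noncomm_ring
      _ = _ := by rw [hpp]
  have hcyc : ∀ v : K, ∀ ε : ℝ, 0 < ε → ∃ x ∈ M₁, ‖v - x ξ₁‖ ≤ ε := by
    intro v ε hε
    obtain ⟨x, hx, hvx⟩ := hS.cyc (V v) ε hε
    have hy : p * x * p ∈ M := mul_mem (mul_mem hpM hx) hpM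
    obtain ⟨h1, h2⟩ := hcM _ hy (hpxp x)
    refine ⟨α • cp V (p * x * p), M₁.toStarSubalgebra.smul_mem h1 α, ?_⟩
    rw [← hV]
    have hVv := (hr (V v)).2 ⟨v, rfl⟩
    have h3 : V (v - (α • cp V (p * x * p)) ξ₁) = p (ρ p (V v - x ξ)) := by
      rw [map_sub]
      show V v - V (α • cp V (p * x * p) ξ₁) = _
      rw [map_smul, h2, hVξ, map_smul, smul_smul, mul_inv_cancel₀ hα0, one_smul, map_sub, map_sub,
        hVv.2, hVv.1]
      congr 1
      show p (x (p (p ξ))) = p (ρ p (x ξ))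
      rw [show p (p ξ) = p ξ from app_eq hpp ξ, hvec]
      congr 1
      exact app_eq ((mem_comm_iff M _).1 hfM x hx) ξ
    rw [h3]
    exact (proj_norm_le hps hpp _).trans ((proj_norm_le hfs hff _).trans hvx)
  have htr : ∀ x ∈ M₁, ∀ y ∈ M₁, ⟪ξ₁, x (y ξ₁)⟫_ℂ = ⟪ξ₁, y (x ξ₁)⟫_ℂ := by
    intro z hz z' hz'
    obtain ⟨x, hx, hxe, hzx⟩ := (hM₁ z).1 hz
    obtain ⟨y, hy, hye, hzy⟩ := (hM₁ z').1 hz'
    have key : ∀ (z z' : K →L[ℂ] K) (x y : H →L[ℂ] H), p * x * p = x → p * y * p = y →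
        (∀ k, V (z k) = x (V k)) → (∀ k, V (z' k) = y (V k)) →
        ⟪ξ₁, z (z' ξ₁)⟫_ℂ = (starRingEnd ℂ) α⁻¹ * (α⁻¹ * ⟪ξ, x (y ξ)⟫_ℂ) := by
      intro z z' x y hxe hye hzx hzy
      rw [← inner_isom V hV, hzx, hzy, hVξ, map_smul, map_smul, inner_smul_left,
        inner_smul_right, ← inner_star, hps]
      have h1 : y (p ξ) = y ξ := app_eq (corner_right hpp hye) ξ
      have h2 : p (x (y ξ)) = x (y ξ) := app_eq (corner_left hpp hxe) _
      rw [h1, h2]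
    rw [key z z' x y hxe hye hzx hzy, key z' z y x hye hxe hzy hzx, hS.tr x hx y hy]
  obtain ⟨ρ₁, hS₁⟩ := Pool.Agent.W357.KKS.STD.std K M₁ ξ₁ hξ₁n hcyc htr
  -- the right multiplication
  have hρ : ∀ a ∈ M, p * a * p = a → ∀ z : K →L[ℂ] K, (∀ k, V (z k) = a (V k)) →
      ∀ k, V (ρ₁ z k) = ρ a (V k) := by
    intro a ha hae z hz k
    have hzM : z ∈ M₁ := (hM₁ z).2 ⟨a, ha, hae, hz⟩
    have hclosed : IsClosed {k : K | V (ρ₁ z k) = ρ a (V k)} :=
      isClosed_eq (by fun_prop) (by fun_prop)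
    have hk : k ∈ closure {k : K | V (ρ₁ z k) = ρ a (V k)} := by
      rw [Metric.mem_closure_iff]
      intro ε hε
      obtain ⟨w, hw, hkw⟩ := hS₁.cyc k (ε / 2) (by positivity)
      refine ⟨w ξ₁, ?_, by rw [dist_eq_norm]; linarith⟩
      obtain ⟨y, hy, hye, hwy⟩ := (hM₁ w).1 hw
      show V (ρ₁ z (w ξ₁)) = ρ a (V (w ξ₁))
      have h1 : ρ₁ z (w ξ₁) = w (ρ₁ z ξ₁) := app_eq (hS₁.comm z hzM w hw) ξ₁
      rw [h1, hS₁.vec z hzM, hwy, hz, hwy, hVξ, map_smul, map_smul, map_smul, map_smul]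
      congr 1
      have h2 : a (p ξ) = a ξ := app_eq (corner_right hpp hae) ξ
      have h3 : y (p ξ) = y ξ := app_eq (corner_right hpp hye) ξ
      have h4 : ρ a (y ξ) = y (ρ a ξ) := app_eq (hS.comm a ha y hy) ξ
      rw [h2, h3, h4, hS.vec a ha]
    exact hclosed.closure_subset hk
  -- the masa
  have hAc : ∀ a ∈ A, p * a = a → p * a * p = a := by
    intro a ha h1
    rw [h1, hD.comm a ha p hpA, h1]
  let A₁ : StarSubalgebra ℂ (K →L[ℂ] K) :=
    { carrier := {z | ∃ a ∈ A, p * a = a ∧ ∀ k, V (z k) = a (V k)}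
      mul_mem' := by
        rintro z z' ⟨a, ha, hpa, hz⟩ ⟨b, hb, hpb, hz'⟩
        refine ⟨a * b, A.mul_mem ha hb, by rw [← mul_assoc, hpa], fun k => ?_⟩
        show V (z (z' k)) = a (b (V k))
        rw [hz, hz']
      add_mem' := by
        rintro z z' ⟨a, ha, hpa, hz⟩ ⟨b, hb, hpb, hz'⟩
        refine ⟨a + b, A.add_mem ha hb, by rw [mul_add, hpa, hpb], fun k => ?_⟩
        show V (z k + z' k) = a (V k) + b (V k)
        rw [map_add, hz, hz']
      algebraMap_mem' := by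
        intro c
        refine ⟨c • p, A.smul_mem hpA c, by rw [mul_smul_comm, hpp], fun k => ?_⟩
        rw [Algebra.algebraMap_eq_smul_one]
        show V (c • k) = c • p (V k)
        rw [map_smul, ((hr (V k)).2 ⟨k, rfl⟩).1]
      star_mem' := by
        rintro z ⟨a, ha, hpa, hz⟩
        have hsa : star a ∈ A := A.star_mem' ha
        have h1 : p * star a = star a := by
          have h2 := congrArg star hpa
          rw [star_mul, hps] at h2
          rw [hD.comm p hpA _ hsa, h2]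
        exact ⟨star a, hsa, h1, star_cor hV hz
          (range_of hfM hpp hr (hD.le _ hsa) (hAc _ hsa h1))⟩ }
  have hA₁ : ∀ z : K →L[ℂ] K, z ∈ A₁ ↔ ∃ a ∈ A, p * a = a ∧ ∀ k, V (z k) = a (V k) :=
    fun z => Iff.rfl
  have hmasa : IsMasa M₁ A₁ := by
    refine ⟨?_, ?_, ?_⟩
    · intro z hz
      obtain ⟨a, ha, hpa, hz'⟩ := (hA₁ z).1 hz
      exact (hM₁ z).2 ⟨a, hD.le a ha, hAc a ha hpa, hz'⟩
    · intro z hz z' hz'
      obtain ⟨a, ha, hpa, hza⟩ := (hA₁ z).1 hz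
      obtain ⟨b, hb, hpb, hzb⟩ := (hA₁ z').1 hz'
      refine ContinuousLinearMap.ext fun k => inj_isom V hV ?_
      show V (z (z' k)) = V (z' (z k))
      rw [hza, hzb, hzb, hza]
      exact app_eq (hD.comm a ha b hb) (V k)
    · intro z hz hc
      obtain ⟨x, hx, hxe, hzx⟩ := (hM₁ z).1 hz
      have hpx := corner_left hpp hxe
      have hxp := corner_right hpp hxe
      refine (hA₁ z).2 ⟨x, hD.max x hx fun b hb => ?_, hpx, hzx⟩
      have ha : p * b ∈ A := A.mul_mem hpA hb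
      have hpa : p * (p * b) = p * b := by rw [← mul_assoc, hpp]
      have hspec := (hcM _ (hD.le _ ha) (hAc _ ha hpa)).2
      have h1 := hc (cp V (p * b)) ((hA₁ _).2 ⟨p * b, ha, hpa, hspec⟩)
      have h2 : x * (p * b) - (p * b) * x = 0 := by
        refine inj_corner hpp hff hvec sM hr _
          (sub_mem (mul_mem hx (hD.le _ ha)) (mul_mem (hD.le _ ha) hx)) ?_ ?_
        · have h3 : p * (x * (p * b)) * p = x * (p * b) := by
            calc p * (x * (p * b)) * p = (p * x) * ((p * b) * p) := by noncomm_ring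
              _ = x * (p * b) := by rw [hpx, hD.comm _ ha p hpA, hpa]
          have h4 : p * ((p * b) * x) * p = (p * b) * x := by
            calc p * ((p * b) * x) * p = (p * (p * b)) * (x * p) := by noncomm_ring
              _ = (p * b) * x := by rw [hxp, hpa]
          rw [mul_sub, sub_mul, h3, h4]
        · intro k
          show x ((p * b) (V k)) - (p * b) (x (V k)) = 0
          rw [← hspec, ← hzx, ← hzx, ← hspec]
          have h3 : z (cp V (p * b) k) = cp V (p * b) (z k) := app_eq h1 k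
          rw [h3, sub_self]
      have h3 : x * (p * b) = (p * b) * x := sub_eq_zero.1 h2
      calc x * b = (x * p) * b := by rw [hxp]
        _ = x * (p * b) := by rw [mul_assoc]
        _ = (p * b) * x := h3
        _ = (b * p) * x := by rw [hD.comm p hpA b hb]
        _ = b * (p * x) := by rw [mul_assoc]
        _ = b * x := by rw [hpx]
  have hInst : Inst M₁ N₁ ξ₁ ρ₁ A₁ γ := by
    refine ⟨hS₁, hmasa, ?_, ?_, ?_, ?_, ?_, ?_⟩
    · intro z hz
      obtain ⟨a, ha, hpa, hz'⟩ := (hA₁ z).1 hz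
      exact (hN₁ z).2 ⟨a, hI.AN a ha, hAc a ha hpa, hz'⟩
    · intro z hz
      obtain ⟨a, ha, hpa, hz'⟩ := (hA₁ z).1 hz
      have haM := hD.le a ha
      refine (hN₁' _).2 ⟨ρ a, hI.AN' a ha, ?_, hρ a haM (hAc a ha hpa) z hz'⟩
      rw [← hS.mul a haM p hpM, ← hS.mul p hpM _ (mul_mem haM hpM), ← mul_assoc, hAc a ha hpa]
    · exact near_cor hps hpp hpN hfN hV hr (fun z => (hM₁ z).1) (fun z => (hN₁ z).2) isoM hI.n1
    · exact near_cor hps hpp hpM hfM hV hr (fun z => (hN₁ z).1) (fun z => (hM₁ z).2) isoN hI.n2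
    · exact near_cor hfs hff hfN hpN'' hV hr' (fun z => (hM₁' z).1) (fun z => (hN₁' z).2)
        isoM' hI.n3
    · exact near_cor hfs hff hfM hpM'' hV hr' (fun z => (hN₁' z).1) (fun z => (hM₁' z).2)
        isoN' hI.n4
  refine ⟨K, i1, i2, i3, V, M₁, N₁, ξ₁, ρ₁, A₁, hInst, hV, hr, hM₁, hN₁, hM₁', hN₁', hA₁, ?_,
    hρ, isoM, isoN, isoN'⟩
  rw [hVξ, smul_smul, mul_inv_cancel₀ hα0, one_smul]

end Pool.Agent.W692.KKS

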