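import Mathlib
import Pool.Agent.W662.KKS.Stmts3
import Pool.Agent.W663.KK.Masa

/-!
# Corners of instances: preparations
-/

set_option autoImplicit false
set_option linter.unusedSectionVars false

open scoped InnerProductSpace
open Pool.Agent.W662.KKS Pool.Agent.Helper278

namespace Pool.Agent.W692.KKS

variable {H : Type} [NormedAddCommGroup H] [InnerProductSpace ℂ H] [CompleteSpace H]

theorem inner_star' (x : H →L[ℂ] H) (v w : H) : ⟪star x v, w⟫_ℂ = ⟪v, x w⟫_ℂ := by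
  rw [ContinuousLinearMap.star_eq_adjoint, ContinuousLinearMap.adjoint_inner_left]

theorem inner_star (x : H →L[ℂ] H) (v w : H) : ⟪v, star x w⟫_ℂ = ⟪x v, w⟫_ℂ := by
  rw [ContinuousLinearMap.star_eq_adjoint, ContinuousLinearMap.adjoint_inner_right]

/-- the adjoint of an isometry -/
theorem adj_isom {K : Type} [NormedAddCommGroup K] [InnerProductSpace ℂ K] [CompleteSpace K]
    (V : K →L[ℂ] H) (hV : ∀ k, ‖V k‖ = ‖k‖) (k : K) :
    ContinuousLinearMap.adjoint V (V k) = k := by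
  have h1 : ∀ k k', ⟪V k, V k'⟫_ℂ = ⟪k, k'⟫_ℂ := by
    let Vi : K →ₗᵢ[ℂ] H := ⟨V.toLinearMap, hV⟩
    intro k k'
    exact Vi.inner_map_map k k'
  refine ext_inner_left ℂ fun k' => ?_
  rw [ContinuousLinearMap.adjoint_inner_right, h1]

theorem inner_isom {K : Type} [NormedAddCommGroup K] [InnerProductSpace ℂ K] [CompleteSpace K]
    (V : K →L[ℂ] H) (hV : ∀ k, ‖V k‖ = ‖k‖) (k k' : K) : ⟪V k, V k'⟫_ℂ = ⟪k, k'⟫_ℂ := by
  rw [← ContinuousLinearMap.adjoint_inner_right, adj_isom V hV]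

theorem inj_isom {K : Type} [NormedAddCommGroup K] [InnerProductSpace ℂ K] [CompleteSpace K]
    (V : K →L[ℂ] H) (hV : ∀ k, ‖V k‖ = ‖k‖) {k k' : K} (h : V k = V k') : k = k' := by
  rw [← adj_isom V hV k, h, adj_isom V hV]

theorem adj_norm {K : Type} [NormedAddCommGroup K] [InnerProductSpace ℂ K] [CompleteSpace K]
    (V : K →L[ℂ] H) (hV : ∀ k, ‖V k‖ = ‖k‖) (v : H) :
    ‖ContinuousLinearMap.adjoint V v‖ ≤ ‖v‖ := by
  have h1 : ‖V‖ ≤ 1 := ContinuousLinearMap.opNorm_le_bound _ zero_le_one fun k => by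
    rw [hV, one_mul]
  have h2 : ‖ContinuousLinearMap.adjoint V‖ ≤ 1 := by
    rw [LinearIsometryEquiv.norm_map]; exact h1
  calc _ ≤ ‖ContinuousLinearMap.adjoint V‖ * ‖v‖ := ContinuousLinearMap.le_opNorm _ _
    _ ≤ 1 * ‖v‖ := mul_le_mul_of_nonneg_right h2 (norm_nonneg _)
    _ = ‖v‖ := one_mul _

theorem mem_comm_iff (M : VonNeumannAlgebra H) (r : H →L[ℂ] H) :
    r ∈ M.commutant ↔ ∀ x ∈ M, x * r = r * x := by
  rw [VonNeumannAlgebra.mem_commutant_iff]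

theorem mem_of_comm (M : VonNeumannAlgebra H) (x : H →L[ℂ] H)
    (h : ∀ r ∈ M.commutant, r * x = x * r) : x ∈ M := by
  rw [← VonNeumannAlgebra.commutant_commutant M, mem_comm_iff]
  exact h

/-- the two step corner -/
theorem base (h : S_CRN) (p f : H →L[ℂ] H) (hp : star p = p) (hpp : p * p = p)
    (hf : star f = f) (hff : f * f = f) (hpf : p * f = f * p) :
    ∃ (K : Type) (_ : NormedAddCommGroup K) (_ : InnerProductSpace ℂ K) (_ : CompleteSpace K)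
    (V : K →L[ℂ] H), (∀ k, ‖V k‖ = ‖k‖) ∧ (∀ v, (p v = v ∧ f v = v) ↔ ∃ k, V k = v) ∧
    ∀ M : VonNeumannAlgebra H, p ∈ M → f ∈ M.commutant → ∃ M₁ : VonNeumannAlgebra K,
      (∀ z : K →L[ℂ] K, z ∈ M₁ ↔ ∃ x ∈ M, p * x * p = x ∧ ∀ k, V (z k) = x (V k)) ∧
      (∀ z : K →L[ℂ] K, z ∈ M₁.commutant ↔
        ∃ r ∈ M.commutant, f * r * f = r ∧ ∀ k, V (z k) = r (V k)) := by
  obtain ⟨K₁, i1, i2, i3, V₁, hV₁, hr₁, hM₁⟩ := h H p hp hpp
  set A₁ := ContinuousLinearMap.adjoint V₁ with hA₁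
  -- `V₁` intertwines
  have hin : ∀ x : H →L[ℂ] H, (∀ v, p v = v → p (x v) = x v) → ∀ k, V₁ (A₁ (x (V₁ k))) = x (V₁ k) := by
    intro x hx k
    obtain ⟨k', hk'⟩ := (hr₁ (x (V₁ k))).1 (hx _ ((hr₁ _).2 ⟨k, rfl⟩))
    rw [← hk', adj_isom V₁ hV₁]
  have hfp : ∀ v, p v = v → p (f v) = f v := by
    intro v hv
    have : p (f v) = f (p v) := by
      have := congrArg (fun T : H →L[ℂ] H => T v) hpf
      exact this
    rw [this, hv]
  let e₂ : K₁ →L[ℂ] K₁ := A₁ ∘L f ∘L V₁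
  have he₂ : ∀ k, V₁ (e₂ k) = f (V₁ k) := fun k => hin f hfp k
  have hes : star e₂ = e₂ := by
    refine ContinuousLinearMap.ext fun k => ext_inner_left ℂ fun k' => ?_
    rw [inner_star]
    rw [← inner_isom V₁ hV₁, ← inner_isom V₁ hV₁ k', he₂, he₂]
    conv_lhs => rw [← hf]
    rw [inner_star']
  have hee : e₂ * e₂ = e₂ := by
    refine ContinuousLinearMap.ext fun k => inj_isom V₁ hV₁ ?_
    show V₁ (e₂ (e₂ k)) = V₁ (e₂ k)
    rw [he₂, he₂]
    have := congrArg (fun T : H →L[ℂ] H => T (V₁ k)) hff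
    exact this
  obtain ⟨K, j1, j2, j3, V₂, hV₂, hr₂, hM₂⟩ := h K₁ e₂ hes hee
  refine ⟨K, j1, j2, j3, V₁ ∘L V₂, ?_, ?_, ?_⟩
  · intro k
    show ‖V₁ (V₂ k)‖ = _
    rw [hV₁, hV₂]
  · intro v
    constructor
    · rintro ⟨h1, h2⟩
      obtain ⟨k₁, rfl⟩ := (hr₁ v).1 h1
      have h3 : e₂ k₁ = k₁ := inj_isom V₁ hV₁ (by rw [he₂, h2])
      obtain ⟨k₂, rfl⟩ := (hr₂ k₁).1 h3
      exact ⟨k₂, rfl⟩
    · rintro ⟨k, rfl⟩
      have h1 : e₂ (V₂ k) = V₂ k := (hr₂ _).2 ⟨k, rfl⟩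
      refine ⟨(hr₁ _).2 ⟨V₂ k, rfl⟩, ?_⟩
      show f (V₁ (V₂ k)) = V₁ (V₂ k)
      rw [← he₂, h1]
  · intro M hpM hfM
    obtain ⟨Mp, hMp, hMp'⟩ := hM₁ M hpM
    have hfx : ∀ x ∈ M, ∀ v, f (x v) = x (f v) := by
      intro x hx v
      have := congrArg (fun T : H →L[ℂ] H => T v) ((mem_comm_iff M f).1 hfM x hx)
      exact this.symm
    have hrp : ∀ r ∈ M.commutant, ∀ v, r (p v) = p (r v) := by
      intro r hr v
      have := congrArg (fun T : H →L[ℂ] H => T v) ((mem_comm_iff M r).1 hr p hpM)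
      exact this.symm
    have he₂M : e₂ ∈ Mp.commutant := (hMp' e₂).2 ⟨f, hfM, he₂⟩
    obtain ⟨L, hL, hL'⟩ := hM₂ Mp.commutant he₂M
    refine ⟨L.commutant, ?_, ?_⟩
    · intro z
      rw [hL', VonNeumannAlgebra.commutant_commutant]
      constructor
      · rintro ⟨r, hr, hz⟩
        obtain ⟨x, hx, hpx, hrx⟩ := (hMp r).1 hr
        refine ⟨x, hx, hpx, fun k => ?_⟩
        show V₁ (V₂ (z k)) = x (V₁ (V₂ k))
        rw [hz, hrx]
      · rintro ⟨x, hx, hpx, hz⟩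
        have hpx' : ∀ v, p v = v → p (x v) = x v := by
          intro v _
          conv_rhs => rw [← hpx]
          conv_lhs => rw [← hpx]
          show p (p (x (p v))) = p (x (p v))
          have := congrArg (fun T : H →L[ℂ] H => T (x (p v))) hpp
          exact this
        have hz2 : ∀ k, V₁ (V₂ (z k)) = x (V₁ (V₂ k)) := hz
        refine ⟨A₁ ∘L x ∘L V₁, (hMp _).2 ⟨x, hx, hpx, fun k => hin x hpx' k⟩, fun k => ?_⟩
        apply inj_isom V₁ hV₁
        rw [hz2]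
        exact (hin x hpx' (V₂ k)).symm
    · intro z
      rw [VonNeumannAlgebra.commutant_commutant, hL]
      constructor
      · rintro ⟨y, hy, hey, hz⟩
        obtain ⟨r, hr, hyr⟩ := (hMp' y).1 hy
        refine ⟨f * r * f, mul_mem (mul_mem hfM hr) hfM, ?_, fun k => ?_⟩
        · calc f * (f * r * f) * f = (f * f) * r * (f * f) := by noncomm_ring
            _ = f * r * f := by rw [hff]
        · show V₁ (V₂ (z k)) = f (r (f (V₁ (V₂ k))))
          rw [hz]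
          conv_lhs => rw [← hey]
          show V₁ (e₂ (y (e₂ (V₂ k)))) = _
          rw [he₂, hyr, he₂]
      · rintro ⟨r, hr, hfr, hz⟩
        have hz2 : ∀ k, V₁ (V₂ (z k)) = r (V₁ (V₂ k)) := hz
        have hrp' : ∀ v, p v = v → p (r v) = r v := by
          intro v hv
          rw [← hrp r hr, hv]
        have hy : ∀ k, V₁ ((A₁ ∘L r ∘L V₁) k) = r (V₁ k) := fun k => hin r hrp' k
        refine ⟨A₁ ∘L r ∘L V₁, (hMp' _).2 ⟨r, hr, hy⟩, ?_, fun k => ?_⟩
        · refine ContinuousLinearMap.ext fun k => inj_isom V₁ hV₁ ?_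
          show V₁ (e₂ ((A₁ ∘L r ∘L V₁) (e₂ k))) = _
          rw [he₂, hy, hy, he₂]
          have := congrArg (fun T : H →L[ℂ] H => T (V₁ k)) hfr
          exact this
        · apply inj_isom V₁ hV₁
          rw [hz2, hy]

/-- relative commutants: an element of `N` commuting with the masa lies in the masa -/
theorem relcomm {M N : VonNeumannAlgebra H} {D : StarSubalgebra ℂ (H →L[ℂ] H)}
    (hD : IsMasa M D) (hDN : ∀ a ∈ D, a ∈ N) {γ : ℝ} (hγ0 : 0 ≤ γ) (hγ : γ < 1)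
    (hn : Near (N : Set (H →L[ℂ] H)) M γ) (y : H →L[ℂ] H) (hy : y ∈ N)
    (hyc : ∀ a ∈ D, y * a = a * y) : y ∈ D := by
  have h1 := Pool.Agent.W663.KK.conj_masa (M := M) (N := N) hD (v := 1)
    (one_mem _) (by simpa using hDN) hγ0 hγ (by
      intro y hy
      obtain ⟨m, hm, h⟩ := hn y hy
      refine ⟨m, hm, ?_⟩
      simp only [star_one, one_mul, mul_one]
      rw [← norm_neg, neg_sub]
      exact h) y hy (by simpa using hyc)
  simpa using h1

/-- separating vectors -/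
theorem sep_of_masa {M N : VonNeumannAlgebra H} {D : StarSubalgebra ℂ (H →L[ℂ] H)}
    (hD : IsMasa M D) (hDN : ∀ a ∈ D, a ∈ N) {γ : ℝ} (hγ0 : 0 ≤ γ) (hγ : γ < 1)
    (hn : Near (N : Set (H →L[ℂ] H)) M γ) (ξ : H)
    (hr : ∀ a ∈ D, ∃ r ∈ N.commutant, a ξ = r ξ) (hs : ∀ a ∈ D, a ξ = 0 → a = 0)
    (y : H →L[ℂ] H) (hy : y ∈ N) (hyξ : y ξ = 0) : y = 0 := by
  let W₀ : Submodule ℂ H := N.commutant.toStarSubalgebra.toSubalgebra.toSubmodule.map
    (ContinuousLinearMap.apply ℂ H ξ : (H →L[ℂ] H) →L[ℂ] H).toLinearMap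
  have hW₀ : ∀ v, v ∈ W₀ ↔ ∃ r ∈ N.commutant, r ξ = v := by
    intro v
    exact Submodule.mem_map
  let W := W₀.topologicalClosure
  have hWc : IsClosed (W : Set H) := W₀.isClosed_topologicalClosure
  have : CompleteSpace W := hWc.completeSpace_coe
  -- invariance extends to the closure
  have hcl : ∀ t : H →L[ℂ] H, (∀ v ∈ W₀, t v ∈ W₀) → ∀ v ∈ W, t v ∈ W := by
    intro t ht v hv
    exact map_mem_closure t.continuous hv (fun u hu => ht u hu)
  have hN' : ∀ t ∈ N.commutant, ∀ v ∈ W₀, t v ∈ W₀ := by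
    intro t ht v hv
    obtain ⟨r, hr', rfl⟩ := (hW₀ v).1 hv
    exact (hW₀ _).2 ⟨t * r, mul_mem ht hr', rfl⟩
  have hD' : ∀ a ∈ D, ∀ v ∈ W₀, a v ∈ W₀ := by
    intro a ha v hv
    obtain ⟨r, hr', rfl⟩ := (hW₀ v).1 hv
    obtain ⟨s, hs', has⟩ := hr a ha
    refine (hW₀ _).2 ⟨r * s, mul_mem hr' hs', ?_⟩
    show r (s ξ) = a (r ξ)
    rw [← has]
    have := congrArg (fun T : H →L[ℂ] H => T ξ) ((mem_comm_iff N r).1 hr' a (hDN a ha))
    exact this.symm
  set q := W.starProjection with hq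
  have hqN : q ∈ N := by
    apply mem_of_comm
    intro r hr'
    exact (commute_starProjection W r (hcl r (hN' r hr'))
      (hcl _ (hN' _ (star_mem hr')))).symm
  have hqD : q ∈ D := by
    refine relcomm hD hDN hγ0 hγ hn q hqN fun a ha => ?_
    exact commute_starProjection W a (hcl a (hD' a ha)) (hcl _ (hD' _ (D.star_mem' ha)))
  have hξW : ξ ∈ W := W₀.le_topologicalClosure ((hW₀ ξ).2 ⟨1, one_mem _, rfl⟩)
  have hqξ : q ξ = ξ := Submodule.starProjection_eq_self_iff.2 hξW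
  have h1 : (1 : H →L[ℂ] H) - q = 0 := by
    apply hs _ (D.sub_mem D.one_mem hqD)
    show ξ - q ξ = 0
    rw [hqξ, sub_self]
  have hall : ∀ v, v ∈ W := by
    intro v
    have h2 : q v = v := by
      have h3 : (1 : H →L[ℂ] H) = q := sub_eq_zero.1 h1
      rw [← h3]; rfl
    rw [← h2]
    exact W.starProjection_apply_mem v
  -- `y` vanishes on `W₀`
  have h2 : ∀ v ∈ W₀, y v = 0 := by
    intro v hv
    obtain ⟨r, hr', rfl⟩ := (hW₀ v).1 hv
    have := congrArg (fun T : H →L[ℂ] H => T ξ) ((mem_comm_iff N r).1 hr' y hy)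
    have h3 : y (r ξ) = r (y ξ) := this
    rw [h3, hyξ, map_zero]
  refine ContinuousLinearMap.ext fun v => ?_
  have h3 : (W₀ : Set H) ⊆ {v | y v = 0} := h2
  have h4 : closure (W₀ : Set H) ⊆ {v | y v = 0} :=
    closure_minimal h3 (isClosed_eq y.continuous continuous_const)
  exact h4 (hall v)

end Pool.Agent.W692.KKS
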