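import Pool.Agent.W692.KKS.CinstA

/-!
# Corners of instances: isometries
-/

set_option autoImplicit false
set_option linter.unusedSectionVars false

open scoped InnerProductSpace
open Pool.Agent.W662.KKS Pool.Agent.Helper278

namespace Pool.Agent.W692.KKS

variable {H : Type} [NormedAddCommGroup H] [InnerProductSpace ℂ H] [CompleteSpace H]
  {K : Type} [NormedAddCommGroup K] [InnerProductSpace ℂ K] [CompleteSpace K]

theorem app_mul (a b : H →L[ℂ] H) (v : H) : (a * b) v = a (b v) := rfl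

theorem app_eq {a b : H →L[ℂ] H} (h : a = b) (v : H) : a v = b v := by rw [h]

theorem inj_corner {R : VonNeumannAlgebra H} {e f : H →L[ℂ] H} {ξ : H}
    (hee : e * e = e) (hff : f * f = f) (hξ : e ξ = f ξ)
    (hs : ∀ y ∈ R, y ξ = 0 → y = 0) {V : K →L[ℂ] H}
    (hr : ∀ v, (e v = v ∧ f v = v) ↔ ∃ k, V k = v) (y : H →L[ℂ] H) (hy : y ∈ R)
    (hye : e * y * e = y) (hyV : ∀ k, y (V k) = 0) : y = 0 := by
  apply hs y hy
  obtain ⟨k, hk⟩ := (hr (e ξ)).1 ⟨app_eq hee ξ, by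
    rw [hξ]; exact app_eq hff ξ⟩
  have h1 : y ξ = y (e ξ) := by
    conv_lhs => rw [← hye]
    conv_rhs => rw [← hye]
    show e (y (e ξ)) = e (y (e (e ξ)))
    rw [show e (e ξ) = e ξ from app_eq hee ξ]
  rw [h1, ← hk, hyV]

theorem iso {R : VonNeumannAlgebra H} {e f : H →L[ℂ] H} {ξ : H} (heR : e ∈ R)
    (hfR : f ∈ R.commutant) (hes : star e = e)
    (hee : e * e = e) (hff : f * f = f) (hξ : e ξ = f ξ)
    (hs : ∀ y ∈ R, y ξ = 0 → y = 0) {V : K →L[ℂ] H} (hV : ∀ k, ‖V k‖ = ‖k‖)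
    (hr : ∀ v, (e v = v ∧ f v = v) ↔ ∃ k, V k = v) (x : H →L[ℂ] H) (hx : x ∈ R)
    (hxe : e * x * e = x) (z : K →L[ℂ] K) (hz : ∀ k, V (z k) = x (V k)) : ‖z‖ = ‖x‖ := by
  have hex : e * x = x := by
    conv_rhs => rw [← hxe]
    conv_lhs => rw [← hxe]
    rw [← mul_assoc, ← mul_assoc, hee]
  have hxe' : x * e = x := by
    conv_rhs => rw [← hxe]
    conv_lhs => rw [← hxe]
    rw [mul_assoc, hee]
  apply le_antisymm
  · refine ContinuousLinearMap.opNorm_le_bound _ (norm_nonneg _) fun k => ?_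
    rw [← hV, hz]
    refine (x.le_opNorm _).trans ?_
    rw [hV]
  set c := ‖z‖ with hc
  have hc0 : 0 ≤ c := norm_nonneg _
  set h : H →L[ℂ] H := ((c ^ 2 : ℝ) : ℂ) • e - star x * x with hh
  have hhR : h ∈ R := sub_mem (R.toStarSubalgebra.smul_mem heR _) (mul_mem (star_mem hx) hx)
  have hsa : IsSelfAdjoint h := by
    rw [hh]
    apply IsSelfAdjoint.sub
    · rw [IsSelfAdjoint, star_smul, hes]
      congr 1
      simp
    · exact IsSelfAdjoint.star_mul_self x
  have heh : e * h = h := by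
    rw [hh, mul_sub, mul_smul_comm, hee, ← mul_assoc]
    have : e * star x = star x := by
      have := congrArg star hxe'
      rwa [star_mul, hes] at this
    rw [this]
  have hhe : h * e = h := by
    have := congrArg star heh
    rwa [star_mul, hsa.star_eq, hes] at this
  set n := h⁻ with hn
  have hn0 : 0 ≤ n := CFC.negPart_nonneg h
  have hnsa : IsSelfAdjoint n := IsSelfAdjoint.of_nonneg hn0
  have hcomm : ∀ t : H →L[ℂ] H, t * h = h * t → t * n = n * t := by
    intro t ht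
    have h1 : Commute h t := ht.symm
    have h2 : Commute (cfcₙ (·⁻ : ℝ → ℝ) h) t := Commute.cfcₙ_real h1 _
    rw [hn, CFC.negPart_def]
    exact h2.eq.symm
  have hnR : n ∈ R := by
    apply mem_of_comm
    intro r hr'
    exact hcomm r ((mem_comm_iff R r).1 hr' h hhR).symm
  have hhn : h * n = - (n * n) := by
    have h1 := CFC.posPart_sub_negPart h hsa
    conv_lhs => rw [← h1]
    rw [sub_mul, ← hn, hn, CFC.posPart_mul_negPart, zero_sub]
  have hene : e * n = n * e := hcomm e (by rw [heh, hhe])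
  have hen : e * n = n := by
    have h1 : (1 - e) * (n * n) = 0 := by
      have h2 : (1 - e) * (n * n) = - ((1 - e) * h * n) := by
        rw [mul_assoc, hhn]; simp
      rw [h2, sub_mul, one_mul, heh, sub_self, zero_mul, neg_zero]
    have h2 : star ((1 - e) * n) * ((1 - e) * n) = 0 := by
      rw [star_mul, hnsa.star_eq, star_sub, star_one, hes]
      have h3 : n * (1 - e) * ((1 - e) * n) = (1 - e) * (n * n) := by
        have h4 : n * (1 - e) = (1 - e) * n := by rw [mul_sub, sub_mul, hene]; simp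
        have h5 : (1 - e) * (1 - e) = 1 - e := by
          rw [sub_mul, mul_sub, mul_sub, hee]; simp
        calc n * (1 - e) * ((1 - e) * n) = (1 - e) * n * ((1 - e) * n) := by rw [h4]
          _ = (1 - e) * (n * (1 - e)) * n := by noncomm_ring
          _ = (1 - e) * ((1 - e) * n) * n := by rw [h4]
          _ = ((1 - e) * (1 - e)) * (n * n) := by noncomm_ring
          _ = _ := by rw [h5]
      rw [h3, h1]
    have h3 : (1 - e) * n = 0 := (CStarRing.star_mul_self_eq_zero_iff _).1 h2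
    rw [sub_mul, one_mul, sub_eq_zero] at h3
    exact h3.symm
  have hene2 : e * n * e = n := by rw [mul_assoc, ← hene, hen, hen]
  -- `n V = 0`
  have hnV : ∀ k, n (V k) = 0 := by
    intro k
    have hk := (hr (V k)).2 ⟨k, rfl⟩
    obtain ⟨k', hk'⟩ := (hr (n (V k))).1 ⟨app_eq hen _, by
      have h1 := app_eq ((mem_comm_iff R f).1 hfR n hnR) (V k)
      have h2 : n (f (V k)) = f (n (V k)) := h1
      rw [← h2, hk.2]⟩
    have hpos : 0 ≤ (⟪V k', h (V k')⟫_ℂ).re := by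
      have hk2 := (hr (V k')).2 ⟨k', rfl⟩
      have h1 : ⟪V k', h (V k')⟫_ℂ = ((c ^ 2 * ‖V k'‖ ^ 2 - ‖x (V k')‖ ^ 2 : ℝ) : ℂ) := by
        rw [hh]
        show ⟪V k', ((c ^ 2 : ℝ) : ℂ) • e (V k') - star x (x (V k'))⟫_ℂ = _
        rw [inner_sub_right, inner_smul_right, hk2.1, inner_star, inner_self_eq_norm_sq_to_K,
          inner_self_eq_norm_sq_to_K]
        push_cast
        rfl
      rw [h1, Complex.ofReal_re]
      have h2 : ‖x (V k')‖ ≤ c * ‖V k'‖ := by
        rw [← hz, hV, hV]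
        exact z.le_opNorm _
      have h3 : ‖x (V k')‖ ^ 2 ≤ (c * ‖V k'‖) ^ 2 := pow_le_pow_left₀ (norm_nonneg _) h2 2
      rw [mul_pow] at h3
      linarith
    set u := V k with hu
    rw [hk'] at hpos
    have h2 : h (n u) = - (n (n u)) := app_eq hhn u
    rw [h2, inner_neg_right, Complex.neg_re] at hpos
    -- square root
    obtain ⟨s, hs'⟩ := CStarAlgebra.nonneg_iff_eq_star_mul_self.1 hn0
    have h3 : ⟪n u, n (n u)⟫_ℂ = ((‖s (n u)‖ ^ 2 : ℝ) : ℂ) := by
      have h4 : n (n u) = star s (s (n u)) := app_eq hs' (n u)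
      rw [h4, inner_star, inner_self_eq_norm_sq_to_K]
      push_cast; rfl
    rw [h3, Complex.ofReal_re] at hpos
    have h4 : s (n u) = 0 := by
      have : ‖s (n u)‖ ^ 2 ≤ 0 := by linarith
      have := pow_eq_zero_iff (two_ne_zero) |>.1 (le_antisymm this (sq_nonneg _))
      exact norm_eq_zero.1 this
    have h5 : n (n u) = 0 := by
      have h6 : n (n u) = star s (s (n u)) := app_eq hs' (n u)
      rw [h6, h4, map_zero]
    have h6 : ⟪n u, n u⟫_ℂ = 0 := by
      have h7 : ⟪n u, n u⟫_ℂ = ⟪u, n (n u)⟫_ℂ := by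
        rw [← inner_star, hnsa.star_eq]
      rw [h7, h5, inner_zero_right]
    exact inner_self_eq_zero.1 h6
  have hn00 : n = 0 := inj_corner hee hff hξ hs hr n hnR hene2 hnV
  have hh0 : 0 ≤ h := by
    have := (CFC.negPart_eq_zero_iff h hsa).1 hn00
    exact this
  -- conclusion
  refine ContinuousLinearMap.opNorm_le_bound _ hc0 fun v => ?_
  obtain ⟨s, hs'⟩ := CStarAlgebra.nonneg_iff_eq_star_mul_self.1 hh0
  have h1 : ⟪v, h v⟫_ℂ = ((‖s v‖ ^ 2 : ℝ) : ℂ) := by
    rw [hs']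
    show ⟪v, star s (s v)⟫_ℂ = _
    rw [inner_star, inner_self_eq_norm_sq_to_K]
    push_cast; rfl
  have h2 : ⟪v, h v⟫_ℂ = ((c ^ 2 * ‖e v‖ ^ 2 - ‖x v‖ ^ 2 : ℝ) : ℂ) := by
    rw [hh]
    show ⟪v, ((c ^ 2 : ℝ) : ℂ) • e v - star x (x v)⟫_ℂ = _
    have h3 : ⟪v, e v⟫_ℂ = ((‖e v‖ ^ 2 : ℝ) : ℂ) := by
      have h4 : e v = star e (e v) := by
        rw [hes]; exact (app_eq hee v).symm
      conv_lhs => rw [h4]
      rw [inner_star, inner_self_eq_norm_sq_to_K]
      push_cast; rfl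
    rw [inner_sub_right, inner_smul_right, h3, inner_star, inner_self_eq_norm_sq_to_K]
    push_cast
    rfl
  have h3 : ‖e v‖ ≤ ‖v‖ := by
    have h4 : ‖e v‖ ^ 2 ≤ ‖e v‖ * ‖v‖ := by
      have h5 : ((‖e v‖ ^ 2 : ℝ) : ℂ) = ⟪e v, v⟫_ℂ := by
        have h6 : e v = star e (e v) := by
          rw [hes]; exact (app_eq hee v).symm
        have h7 : ⟪e v, v⟫_ℂ = ⟪e v, e v⟫_ℂ := by
          conv_lhs => rw [h6]
          rw [inner_star']
        rw [h7, inner_self_eq_norm_sq_to_K]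
        push_cast; rfl
      have h6 := norm_inner_le_norm (𝕜 := ℂ) (e v) v
      rw [← h5, Complex.norm_real, Real.norm_of_nonneg (sq_nonneg _)] at h6
      exact h6
    rcases (norm_nonneg (e v)).eq_or_lt with h5 | h5
    · rw [← h5]; exact norm_nonneg _
    · nlinarith
  have h4 : ‖x v‖ ^ 2 ≤ (c * ‖v‖) ^ 2 := by
    rw [h1] at h2
    have h5 : ‖s v‖ ^ 2 = c ^ 2 * ‖e v‖ ^ 2 - ‖x v‖ ^ 2 := by exact_mod_cast h2
    have h6 : ‖e v‖ ^ 2 ≤ ‖v‖ ^ 2 := pow_le_pow_left₀ (norm_nonneg _) h3 2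
    have h7 : c ^ 2 * ‖e v‖ ^ 2 ≤ c ^ 2 * ‖v‖ ^ 2 := mul_le_mul_of_nonneg_left h6 (sq_nonneg _)
    rw [mul_pow]
    nlinarith [sq_nonneg (‖s v‖)]
  exact le_of_sq_le_sq h4 (by positivity)

end Pool.Agent.W692.KKS
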